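import Pool.Agent.TH777.WR.Blocks

/-!
# Alperin's weight conjecture for blocks: a congruence modulo one prime suffices

Finite groups `G`, their `p`-blocks, the numbers `l(b)` of simple modules and `w(b)` of classes of
`b`-weights, and the wreath products `G ≀ C_q` with a group of prime order `q ≠ p`, are given by
a structure `Family` whose fields are the facts used.
-/

set_option autoImplicit false

namespace Pool.Agent.Results.MP_78bba1_al.BlocksModuloL

/-- A family of finite groups with their blocks, closed under wreath products with `C_q`. -/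
structure Family (q : ℕ) where
  /-- the groups -/
  Grp : Type
  /-- the blocks of a group -/
  Blk : Grp → Type
  /-- the number `l(b)` of simple modules of the block `b` -/
  simple : (G : Grp) → Blk G → ℕ
  /-- the number `w(b)` of classes of `b`-weights -/
  weight : (G : Grp) → Blk G → ℕ
  /-- the wreath product `G ≀ C_q` -/
  wr : Grp → Grp
  /-- the blocks of `G ≀ C_q` that cover a block `b_1 ⊗ ⋯ ⊗ b_q` of `G ^ q`, all `b_i` in `E` -/
  cov : (G : Grp) → Finset (Blk G) → Finset (Blk (wr G))
  /-- Clifford theory: the simple modules of these blocks are the orbits of `C_q` on the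
  non-constant `q`-tuples of simple modules, and `q` extensions for every constant tuple -/
  simple_cov : ∀ G E, q * (∑ c ∈ cov G E, simple (wr G) c) + ∑ b ∈ E, simple G b =
    (∑ b ∈ E, simple G b) ^ q + q ^ 2 * ∑ b ∈ E, simple G b
  /-- the same for weights -/
  weight_cov : ∀ G E, q * (∑ c ∈ cov G E, weight (wr G) c) + ∑ b ∈ E, weight G b =
    (∑ b ∈ E, weight G b) ^ q + q ^ 2 * ∑ b ∈ E, weight G b

/-- The blocks of the iterated wreath products of `G` lying over the powers of `b`. -/
def Family.over {q : ℕ} (F : Family q) (G : F.Grp) (b : F.Blk G) :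
    ℕ → (H : F.Grp) × Finset (F.Blk H)
  | 0 => ⟨G, {b}⟩
  | n + 1 => ⟨F.wr (Family.over F G b n).1, F.cov _ (Family.over F G b n).2⟩

theorem local_iff (q : ℕ) (hq : q.Prime) (F : Family q) (G : F.Grp) (b : F.Blk G) :
    F.simple G b = F.weight G b ↔ ∀ n,
      (∑ c ∈ (F.over G b n).2, F.simple _ c) ≡ (∑ c ∈ (F.over G b n).2, F.weight _ c) [MOD q] := by
  have hs : ∀ n, (q : ℤ) * ((∑ c ∈ (F.over G b (n + 1)).2, F.simple _ c : ℕ) : ℤ) +
      ((∑ c ∈ (F.over G b n).2, F.simple _ c : ℕ) : ℤ) =
      ((∑ c ∈ (F.over G b n).2, F.simple _ c : ℕ) : ℤ) ^ q +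
        (q : ℤ) ^ 2 * ((∑ c ∈ (F.over G b n).2, F.simple _ c : ℕ) : ℤ) := by
    intro n
    exact_mod_cast F.simple_cov (F.over G b n).1 (F.over G b n).2
  have hw : ∀ n, (q : ℤ) * ((∑ c ∈ (F.over G b (n + 1)).2, F.weight _ c : ℕ) : ℤ) +
      ((∑ c ∈ (F.over G b n).2, F.weight _ c : ℕ) : ℤ) =
      ((∑ c ∈ (F.over G b n).2, F.weight _ c : ℕ) : ℤ) ^ q +
        (q : ℤ) ^ 2 * ((∑ c ∈ (F.over G b n).2, F.weight _ c : ℕ) : ℤ) := by
    intro n
    exact_mod_cast F.weight_cov (F.over G b n).1 (F.over G b n).2
  constructor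
  · intro h0 n
    have h1 : ∀ n, ((∑ c ∈ (F.over G b n).2, F.simple _ c : ℕ) : ℤ) =
        ((∑ c ∈ (F.over G b n).2, F.weight _ c : ℕ) : ℤ) := by
      intro n
      induction n with
      | zero => simpa [Family.over] using h0
      | succ n ih =>
        have h2 := hs n
        have h3 := hw n
        rw [ih] at h2
        have h4 : (q : ℤ) * ((∑ c ∈ (F.over G b (n + 1)).2, F.simple _ c : ℕ) : ℤ) =
            (q : ℤ) * ((∑ c ∈ (F.over G b (n + 1)).2, F.weight _ c : ℕ) : ℤ) := by
          linear_combination h2 - h3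
        exact mul_left_cancel₀ (by exact_mod_cast hq.ne_zero) h4
    have h5 : (∑ c ∈ (F.over G b n).2, F.simple _ c) = ∑ c ∈ (F.over G b n).2, F.weight _ c := by
      exact_mod_cast h1 n
    rw [h5]
  · intro h
    have h1 := Pool.Agent.TH777.WR.coreZ hq.two_le
      (fun n => ((∑ c ∈ (F.over G b n).2, F.simple _ c : ℕ) : ℤ))
      (fun n => ((∑ c ∈ (F.over G b n).2, F.weight _ c : ℕ) : ℤ)) hs hw
      (fun n => Nat.modEq_iff_dvd.1 (h n).symm)
    simpa [Family.over] using h1

/-- (A) `l(b) = w(b)` if and only if, for every `n`, the sums of `l(c)` and of `w(c)` over the blocks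
`c` of the `n`-fold wreath product lying over `b` are congruent modulo `q`. (B) Hence `l(b) = w(b)`
for all blocks of the family if and only if `l(b)` and `w(b)` are congruent modulo `q` for all
blocks of the family. -/
theorem result (q : ℕ) (hq : q.Prime) (F : Family q) :
    (∀ (G : F.Grp) (b : F.Blk G), F.simple G b = F.weight G b ↔ ∀ n,
      (∑ c ∈ (F.over G b n).2, F.simple _ c) ≡ (∑ c ∈ (F.over G b n).2, F.weight _ c) [MOD q]) ∧
    ((∀ (G : F.Grp) (b : F.Blk G), F.simple G b = F.weight G b) ↔
      ∀ (G : F.Grp) (b : F.Blk G), F.simple G b ≡ F.weight G b [MOD q]) := by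
  refine ⟨fun G b => local_iff q hq F G b, fun h G b => by rw [h], fun h G b => ?_⟩
  refine (local_iff q hq F G b).2 fun n => ?_
  have h1 : ∀ (H : F.Grp) (E : Finset (F.Blk H)),
      (∑ c ∈ E, F.simple H c) ≡ (∑ c ∈ E, F.weight H c) [MOD q] := by
    classical
    intro H E
    induction E using Finset.induction_on with
    | empty => exact Nat.ModEq.refl _
    | insert a s ha ih =>
      rw [Finset.sum_insert ha, Finset.sum_insert ha]
      exact (h H a).add ih
  exact h1 _ _

end Pool.Agent.Results.MP_78bba1_al.BlocksModuloL
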