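import Pool.Agent.TH116.PT.Basic

/-!
# Alperin's weight conjecture up to a subpolynomial factor

Let `l(b)` be the number of simple modules of a block `b` of a finite group `G` and `w(b)` the number
of `G`-orbits of `b`-weights. Both are multiplicative: `l(b ⊗ b') = l(b) l(b')` and
`w(b ⊗ b') = w(b) w(b')` for blocks `b` of `G` and `b'` of `G'` (a subgroup `Q` of `G × G'` which
contributes weights is a product, as it is radical).

Theorem. The blockwise weight conjecture `l(b) = w(b)` holds for all blocks of finite groups (or all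
blocks in a family closed under powers) if and only if it holds up to a factor `|G|^{o(1)}`, i.e. for
all `ε > 0` there is `C` such that `l(b) ≤ C |G|^ε w(b)` and `w(b) ≤ C |G|^ε l(b)`. The inequalities
`l(b) ≤ w(b)` and `w(b) ≤ l(b)` are also separately equivalent to their versions up to such factors.
-/

set_option autoImplicit false

universe u

namespace Pool.Agent.Results.MP_78bba1_al.SubpolynomialFactor

/-- A family of blocks of finite groups, closed under powers, with the numbers of simple modules and
of weights. -/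
structure Family where
  /-- the blocks `b` (with the groups `G` which they belong to) -/
  B : Type u
  /-- the block `b ⊗ ... ⊗ b` of `G × ... × G` -/
  pow : B → ℕ → B
  /-- the order of `G` -/
  order : B → ℕ
  order_pos : ∀ b, 1 ≤ order b
  order_pow : ∀ b n, order (pow b n) = order b ^ n
  /-- the number of simple modules of `b` -/
  l : B → ℕ
  l_pow : ∀ b n, l (pow b n) = l b ^ n
  /-- the number of `G`-orbits of `b`-weights -/
  w : B → ℕ
  w_pow : ∀ b n, w (pow b n) = w b ^ n

/-- For every family of blocks closed under powers, the inequalities `l ≤ w`, `w ≤ l`, and the weight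
conjecture `l = w` are equivalent to their versions up to factors `C |G| ^ ε`, `ε > 0`. -/
theorem result (T : Family.{u}) :
    ((∀ b, T.l b ≤ T.w b) ↔ ∀ ε : ℝ, 0 < ε → ∃ C : ℝ, ∀ b,
      (T.l b : ℝ) ≤ C * (T.order b : ℝ) ^ ε * T.w b) ∧
    ((∀ b, T.w b ≤ T.l b) ↔ ∀ ε : ℝ, 0 < ε → ∃ C : ℝ, ∀ b,
      (T.w b : ℝ) ≤ C * (T.order b : ℝ) ^ ε * T.l b) ∧
    ((∀ b, T.l b = T.w b) ↔ ∀ ε : ℝ, 0 < ε → ∃ C : ℝ, ∀ b,
      (T.l b : ℝ) ≤ C * (T.order b : ℝ) ^ ε * T.w b ∧
        (T.w b : ℝ) ≤ C * (T.order b : ℝ) ^ ε * T.l b) := by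
  have h := Pool.Agent.TH116.PT.multiplicative_iff T.pow (f := fun b => (T.l b : ℝ))
    (g := fun b => (T.w b : ℝ)) (s := fun b => (T.order b : ℝ))
    (fun b n => by rw [T.l_pow]; push_cast; rfl)
    (fun b n => by rw [T.w_pow]; push_cast; rfl)
    (fun b n => by rw [T.order_pow]; push_cast; exact le_rfl)
    (fun b => Nat.cast_nonneg _) (fun b => Nat.cast_nonneg _)
    (fun b => by exact_mod_cast T.order_pos b)
  simpa only [Nat.cast_le, Nat.cast_inj] using h

end Pool.Agent.Results.MP_78bba1_al.SubpolynomialFactor
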